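import Pool.Agent.L7h89.Steinberg

/-!
# Finitely many rectangles with sides at most one and total area at most one

They can be packed, with sides parallel to the axes, into a square of side `√2`.
-/

set_option autoImplicit false

open Finset

namespace Pool.Agent.L7h89.St

variable {ι : Type*}

/-- `a i × b i` is the rectangle with sides `p i` and `q i`, in one of the two orientations. -/
def Oriented (p q a b : ι → ℝ) : Prop :=
  ∀ i, (a i = p i ∧ b i = q i) ∨ (a i = q i ∧ b i = p i)

/-- The packing only depends on the sizes of the rectangles in `s`. -/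
theorem Packs.congr {s : Finset ι} {a b a' b' : ι → ℝ} {u v : ℝ} (h : Packs s a b u v)
    (ha : ∀ i ∈ s, a i = a' i) (hb : ∀ i ∈ s, b i = b' i) : Packs s a' b' u v := by
  obtain ⟨x, y, h1, h2⟩ := h
  refine ⟨x, y, fun i hi => ?_, fun i hi j hj hij => ?_⟩
  · rw [← ha i hi, ← hb i hi]
    exact h1 i hi
  · have := h2 i hi j hj hij
    unfold Sep at *
    rw [← ha i hi, ← hb i hi, ← ha j hj, ← hb j hj]
    exact this

/-! Four real inequalities. -/

theorem ineq_B1 {r a b d c S : ℝ} (hr : r * r = 2) (hr1 : (1.414 : ℝ) < r)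
    (hr2 : r < (1.4143 : ℝ)) (hb : r < 2 * b) (hba : b ≤ a)
    (hS : S ≤ 1 - a * b - d * c) (hk : b * (r - b) ≤ 2 * (d * c)) :
    S ≤ (r - a) * (r - 1) := by
  have k2 : 0 ≤ (a - b) * (b - (r - 1)) := mul_nonneg (by linarith) (by linarith)
  have k3 : 0 ≤ (2 * b - r) * (2 * b + r) := mul_nonneg (by linarith) (by linarith)
  have k4 : 0 ≤ (2 - r) * (2 * b - r) := mul_nonneg (by linarith) (by linarith)
  linarith

theorem ineq_B2 {r a b d c S : ℝ} (hr : r * r = 2) (hr1 : (1.414 : ℝ) < r)
    (hr2 : r < (1.4143 : ℝ)) (hb : r < 2 * b) (hba : b ≤ a) (hd : d ≤ 1)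
    (hS : S ≤ 1 - a * b - d * c) (hk : d * (r - b) ≤ 2 * (d * c)) :
    S ≤ (r - d) * (r - 1) := by
  have k1 : 0 ≤ (a - b) * b := mul_nonneg (by linarith) (by linarith)
  have k2 : 0 ≤ (1 - d) * (2 * (r - 1) - (r - b)) := mul_nonneg (by linarith) (by linarith)
  have k3 : 0 ≤ (2 * b - r) * (2 * b + r - 1) := mul_nonneg (by linarith) (by linarith)
  linarith

theorem ineq_B2' {r d x : ℝ} (hr : r * r = 2) (hr1 : (1.414 : ℝ) < r)
    (hr2 : r < (1.4143 : ℝ)) (hd0 : 0 < d) (hd : d ≤ 1) (_hx : 0 < x)
    (h : 2 * (d * x + x * x) < 1) : x ≤ r - d := by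
  by_contra hcon
  push Not at hcon
  have k3 : (r - d) * r ≤ x * (d + x) :=
    mul_le_mul hcon.le (by linarith) (by linarith) (by linarith)
  have k5 : 0 ≤ (1 - d) * r := mul_nonneg (by linarith) (by linarith)
  linarith

theorem ineq_C {r a b S : ℝ} (hr : r * r = 2) (hr1 : (1.414 : ℝ) < r)
    (hr2 : r < (1.4143 : ℝ)) (hb : r < 2 * b) (hba : b ≤ a) (ha : a ≤ 1)
    (hS : S ≤ 1 - a * b - (r - a) * (r - a)) :
    S ≤ (r - a) * (r - a) ∧ S ≤ (r - a) * (r - 1) := by
  have k1 : a * r ≤ 2 * (a * b) := by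
    have := mul_le_mul_of_nonneg_left hb.le (by linarith : (0:ℝ) ≤ a)
    linarith
  constructor
  · have k2 : 0 ≤ (r - a) * (3 * r - 4 * a) := mul_nonneg (by linarith) (by linarith)
    linarith
  · have k2 : 0 ≤ (1 - a) * (1 - a) := mul_nonneg (by linarith) (by linarith)
    have k3 : 0 ≤ (1 - a) * (5 * r - 6) := mul_nonneg (by linarith) (by linarith)
    linarith

/-- The configuration with two rectangles in a column at the left and all others upright in the
column at the right. -/
theorem column [DecidableEq ι] {r : ℝ} (hr1 : (1.414 : ℝ) < r)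
    (hr2 : r < (1.4143 : ℝ)) {s : Finset ι} {p q : ι → ℝ}
    (hpq : ∀ i ∈ s, 0 < q i ∧ q i ≤ p i ∧ p i ≤ 1) {i₁ i₂ : ι} (h₁ : i₁ ∈ s) (h₂ : i₂ ∈ s)
    (h12 : i₂ ≠ i₁) {m : ℝ} (hm0 : 0 ≤ m) (hm1 : p i₁ ≤ m) (hm2 : p i₂ ≤ m) (hmr : m ≤ r)
    (hbc : q i₁ + q i₂ ≤ r)
    (hq : ∀ i ∈ (s.erase i₁).erase i₂, q i ≤ r - m)
    (hS : ∑ i ∈ (s.erase i₁).erase i₂, p i * q i ≤ (r - m) * (r - 1)) :
    ∃ a b : ι → ℝ, Oriented p q a b ∧ Packs s a b r r := by
  set R := (s.erase i₁).erase i₂ with hR
  have hRs : ∀ i ∈ R, i ∈ s := fun i hi =>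
    Finset.mem_of_mem_erase (Finset.mem_of_mem_erase hi)
  have hR1 : ∀ i ∈ R, i ≠ i₁ := fun i hi =>
    Finset.ne_of_mem_erase (Finset.mem_of_mem_erase hi)
  have hR2 : ∀ i ∈ R, i ≠ i₂ := fun i hi => Finset.ne_of_mem_erase hi
  refine ⟨fun i => if i = i₁ ∨ i = i₂ then p i else q i,
    fun i => if i = i₁ ∨ i = i₂ then q i else p i, ?_, ?_⟩
  · intro i
    by_cases h : i = i₁ ∨ i = i₂ <;> simp [h]
  have hRp : Packs R q p (r - m) r := by
    refine steinberg (A := r - m) (B := 1) (fun i hi => ?_) le_rfl (by linarith) (by linarith)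
      (by linarith) ?_
    · obtain ⟨k1, k2, k3⟩ := hpq i (hRs i hi)
      exact ⟨k1, hq i hi, by linarith, k3⟩
    · have e1 : max (2 * (r - m) - (r - m)) 0 = r - m := by
        rw [max_eq_left] <;> linarith
      have e2 : max (2 * 1 - r) 0 = 2 - r := by
        rw [max_eq_left] <;> linarith
      have e3 : ∑ i ∈ R, q i * p i = ∑ i ∈ R, p i * q i :=
        Finset.sum_congr rfl fun i _ => mul_comm _ _
      rw [e1, e2, e3]
      have e4 : (r - m) * r - (r - m) * (2 - r) = 2 * ((r - m) * (r - 1)) := by ring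
      rw [e4]
      linarith
  have hpair : Packs ({i₁} ∪ {i₂}) p q m r := by
    refine Packs.above (v₁ := q i₁) (v₂ := q i₂) ?_ (hpq i₁ h₁).1.le (hpq i₂ h₂).1.le hbc
      (Packs.single hm1 le_rfl) (Packs.single hm2 le_rfl)
    rw [Finset.disjoint_singleton]
    exact fun h => h12 h.symm
  have hd : Disjoint ({i₁} ∪ {i₂}) R := by
    rw [Finset.disjoint_left]
    intro j hj hj'
    rcases Finset.mem_union.1 hj with h1 | h1
    · exact hR1 j hj' (Finset.mem_singleton.1 h1)
    · exact hR2 j hj' (Finset.mem_singleton.1 h1)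
  have hun : ({i₁} ∪ {i₂}) ∪ R = s := by
    ext j
    simp only [Finset.mem_union, Finset.mem_singleton, hR, Finset.mem_erase]
    constructor
    · rintro ((h1 | h1) | h1)
      · rw [h1]; exact h₁
      · rw [h1]; exact h₂
      · exact h1.2.2
    · intro h1
      by_cases h2 : j = i₁
      · exact Or.inl (Or.inl h2)
      · by_cases h3 : j = i₂
        · exact Or.inl (Or.inr h3)
        · exact Or.inr ⟨h3, h2, h1⟩
  have hpair' := hpair.congr (a' := fun i => if i = i₁ ∨ i = i₂ then p i else q i)
    (b' := fun i => if i = i₁ ∨ i = i₂ then q i else p i) (fun i hi => by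
      have : i = i₁ ∨ i = i₂ := by simpa using hi
      simp [this]) (fun i hi => by
      have : i = i₁ ∨ i = i₂ := by simpa using hi
      simp [this])
  have hRp' := hRp.congr (a' := fun i => if i = i₁ ∨ i = i₂ then p i else q i)
    (b' := fun i => if i = i₁ ∨ i = i₂ then q i else p i) (fun i hi => by
      have : ¬ (i = i₁ ∨ i = i₂) := by
        push Not
        exact ⟨hR1 i hi, hR2 i hi⟩
      simp [this]) (fun i hi => by
      have : ¬ (i = i₁ ∨ i = i₂) := by
        push Not
        exact ⟨hR1 i hi, hR2 i hi⟩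
      simp [this])
  have := Packs.beside hd hm0 (by linarith) (by linarith : m + (r - m) ≤ r) hpair' hRp'
  rwa [hun] at this

/-- Finitely many rectangles with sides at most `1` and total area at most `1` pack into the
square of side `√2`. -/
theorem moser_finite [DecidableEq ι] {r : ℝ} (hr : r * r = 2) (hr1 : (1.414 : ℝ) < r)
    (hr2 : r < (1.4143 : ℝ)) {s : Finset ι} {p q : ι → ℝ}
    (hpq : ∀ i ∈ s, 0 < q i ∧ q i ≤ p i ∧ p i ≤ 1) (hS : ∑ i ∈ s, p i * q i ≤ 1) :
    ∃ a b : ι → ℝ, Oriented p q a b ∧ Packs s a b r r := by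
  by_cases hI : ∀ i ∈ s, 2 * q i ≤ r
  · refine ⟨p, q, fun i => Or.inl ⟨rfl, rfl⟩, ?_⟩
    refine steinberg (A := 1) (B := r / 2) (fun i hi => ?_) (by linarith) (by linarith)
      (by linarith) (by linarith) ?_
    · obtain ⟨k1, k2, k3⟩ := hpq i hi
      exact ⟨by linarith, k3, k1, by linarith [hI i hi]⟩
    · have e1 : max (2 * (r / 2) - r) 0 = 0 := by
        rw [max_eq_right]; linarith
      rw [e1, mul_zero, sub_zero, hr]
      linarith
  push Not at hI
  obtain ⟨i₁, h₁, hb⟩ := hI
  set R := s.erase i₁ with hRdef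
  obtain ⟨hb0, hba, ha1⟩ := hpq i₁ h₁
  set a := p i₁ with ha
  set b := q i₁ with hbdef
  have hsR : ∑ i ∈ R, p i * q i + a * b = ∑ i ∈ s, p i * q i :=
    Finset.sum_erase_add s (fun i => p i * q i) h₁
  have hRs : ∀ i ∈ R, i ∈ s := fun i hi => Finset.mem_of_mem_erase hi
  have hd1 : Disjoint {i₁} R := by
    rw [Finset.disjoint_singleton_left]
    exact Finset.notMem_erase _ _
  have hun1 : {i₁} ∪ R = s := by
    rw [hRdef]
    exact Finset.insert_erase h₁
  rcases R.eq_empty_or_nonempty with hRe | hRne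
  · have : s = {i₁} := by
      rw [← hun1, hRe, Finset.union_empty]
    refine ⟨p, q, fun i => Or.inl ⟨rfl, rfl⟩, ?_⟩
    rw [this]
    exact Packs.single (by linarith) (by linarith)
  obtain ⟨i₂, h₂, hmax⟩ := Finset.exists_max_image R q hRne
  have h₂s := hRs i₂ h₂
  have h21 : i₂ ≠ i₁ := Finset.ne_of_mem_erase h₂
  obtain ⟨hc0, hcd, hd1'⟩ := hpq i₂ h₂s
  set d := p i₂ with hd
  set c := q i₂ with hc
  set R' := R.erase i₂ with hR'
  have hsR' : ∑ i ∈ R', p i * q i + d * c = ∑ i ∈ R, p i * q i :=
    Finset.sum_erase_add R (fun i => p i * q i) h₂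
  have hR's : ∀ i ∈ R', i ∈ s := fun i hi => hRs i (Finset.mem_of_mem_erase hi)
  have hS'' : 0 ≤ ∑ i ∈ R', p i * q i := Finset.sum_nonneg fun i hi => by
    obtain ⟨k1, k2, k3⟩ := hpq i (hR's i hi)
    exact mul_nonneg (by linarith) k1.le
  set S'' := ∑ i ∈ R', p i * q i with hS''def
  set S' := ∑ i ∈ R, p i * q i with hS'def
  have hqS : ∀ i ∈ R', q i * q i ≤ S'' := by
    intro i hi
    have h3 : p i * q i ≤ S'' := by
      refine Finset.single_le_sum (f := fun i => p i * q i) (fun j hj => ?_) hi
      obtain ⟨k1, k2, k3⟩ := hpq j (hR's j hj)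
      exact mul_nonneg (by linarith) k1.le
    obtain ⟨k1, k2, k3⟩ := hpq i (hR's i hi)
    have h4 : q i * q i ≤ p i * q i := mul_le_mul_of_nonneg_right k2 k1.le
    linarith
  have hqc : ∀ i ∈ R', q i ≤ c := fun i hi => hmax i (Finset.mem_of_mem_erase hi)
  -- basic facts
  have hra : r < 2 * a := by linarith
  have hab : 1 < 2 * (a * b) := by nlinarith
  have hdc : c * c ≤ d * c := mul_le_mul_of_nonneg_right hcd hc0.le
  have hbb : b * b ≤ a * b := mul_le_mul_of_nonneg_right hba hb0.le
  have hF1 : b + c ≤ r := by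
    by_contra hcon
    push Not at hcon
    nlinarith [sq_nonneg (r * b - 1), mul_pos hc0 hb0]
  have hF2 : 2 * c ≤ r := by
    by_contra hcon
    push Not at hcon
    nlinarith
  -- all other rectangles in the strip above
  have htop : ∀ A B : ℝ, A ≤ r → B ≤ r - b → (∀ i ∈ R, p i ≤ A) → (∀ i ∈ R, q i ≤ B) →
      2 * S' ≤ r * (r - b) - max (2 * A - r) 0 * max (2 * B - (r - b)) 0 →
      ∃ a b : ι → ℝ, Oriented p q a b ∧ Packs s a b r r := by
    intro A B hA hB hpA hqB hcond
    refine ⟨p, q, fun i => Or.inl ⟨rfl, rfl⟩, ?_⟩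
    have hRp : Packs R p q r (r - b) := by
      refine steinberg (A := A) (B := B) (fun i hi => ?_) hA hB (by linarith) (by linarith) hcond
      obtain ⟨k1, k2, k3⟩ := hpq i (hRs i hi)
      exact ⟨by linarith, hpA i hi, k1, hqB i hi⟩
    have := Packs.above (a := p) (b := q) (v := r) hd1 hb0.le (by linarith)
      (by linarith : b + (r - b) ≤ r)
      (Packs.single (i := i₁) (by linarith) le_rfl) hRp
    rwa [hun1] at this
  by_cases h0 : 2 * c ≤ r - b
  · refine htop 1 c (by linarith) (by linarith) (fun i hi => (hpq i (hRs i hi)).2.2)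
      (fun i hi => hmax i hi) ?_
    have e1 : max (2 * c - (r - b)) 0 = 0 := by
      rw [max_eq_right]; linarith
    rw [e1, mul_zero, sub_zero]
    have e2 : r * (r - b) = 2 - r * b := by rw [mul_sub, hr]
    have e3 : r * b ≤ 2 * a * b := mul_le_mul_of_nonneg_right hra.le hb0.le
    rw [e2]
    linarith
  push Not at h0
  by_cases h1 : ∀ i ∈ R, p i ≤ a
  · refine htop a c (by linarith) (by linarith) h1 (fun i hi => hmax i hi) ?_
    have e1 : max (2 * c - (r - b)) 0 = 2 * c - (r - b) := by
      rw [max_eq_left]; linarith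
    have e2 : max (2 * a - r) 0 = 2 * a - r := by
      rw [max_eq_left]; linarith
    rw [e1, e2]
    have e3 : (2 * a - r) * (2 * c - (r - b)) ≤ (2 * a - r) * b :=
      mul_le_mul_of_nonneg_left (by linarith) (by linarith)
    have e4 : r * (r - b) - (2 * a - r) * b = 2 - 2 * (a * b) := by
      have : r * (r - b) - (2 * a - r) * b = r * r - 2 * (a * b) := by ring
      rw [this, hr]
    linarith
  by_cases hA : c ≤ r - a ∧ d ≤ b
  · -- second rectangle upright beside the first one
    have hRA : Packs R' p q r (r - b) := by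
      refine steinberg (A := 1) (B := c) (fun i hi => ?_) (by linarith) (by linarith)
        (by linarith) (by linarith) ?_
      · obtain ⟨k1, k2, k3⟩ := hpq i (hR's i hi)
        exact ⟨by linarith, k3, k1, hqc i hi⟩
      · have e1 : max (2 * c - (r - b)) 0 = 2 * c - (r - b) := by
          rw [max_eq_left]; linarith
        have e2 : max (2 * 1 - r) 0 = 2 - r := by
          rw [max_eq_left] <;> linarith
        rw [e1, e2]
        have k1 : (2 - r) * (2 * c - (r - b)) ≤ (2 - r) * (2 * c - (r - 1)) :=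
          mul_le_mul_of_nonneg_left (by linarith) (by linarith)
        have k2 : (2 - r) * (2 * c - (r - 1)) ≤ 2 * (c * c) := by
          have m1 := sq_nonneg (2 * c - (2 - r))
          have m2 := mul_pos (by linarith : (0:ℝ) < 2 - r) (by linarith : (0:ℝ) < 3 * r - 4)
          have m3 : 2 * (2 * (c * c) - (2 - r) * (2 * c - (r - 1))) =
              (2 * c - (2 - r)) ^ 2 + (2 - r) * (3 * r - 4) := by ring
          linarith
        have k3 : 0 ≤ b * (2 * a - r) := mul_nonneg hb0.le (by linarith)
        have k4 : b * (2 * a - r) = 2 * (a * b) - r * b := by ring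
        have k5 : r * (r - b) = 2 - r * b := by rw [mul_sub, hr]
        rw [k5]
        linarith
    refine ⟨fun i => if i = i₂ then q i else p i, fun i => if i = i₂ then p i else q i, ?_, ?_⟩
    · intro i
      by_cases h : i = i₂ <;> simp [h]
    have hR'2 : ∀ i ∈ R', i ≠ i₂ := fun i hi => Finset.ne_of_mem_erase hi
    have hR'1 : ∀ i ∈ R', i ≠ i₁ := fun i hi =>
      Finset.ne_of_mem_erase (Finset.mem_of_mem_erase hi)
    have hRA' := hRA.congr (a' := fun i => if i = i₂ then q i else p i)
      (b' := fun i => if i = i₂ then p i else q i) (fun i hi => by simp [hR'2 i hi])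
      (fun i hi => by simp [hR'2 i hi])
    have hpair : Packs ({i₁} ∪ {i₂}) (fun i => if i = i₂ then q i else p i)
        (fun i => if i = i₂ then p i else q i) r b := by
      refine Packs.beside (u₁ := a) (u₂ := r - a) ?_ (by linarith) (by linarith) (by linarith)
        (Packs.single ?_ ?_) (Packs.single ?_ ?_)
      · rw [Finset.disjoint_singleton]
        exact fun h => h21 h.symm
      · simp [Ne.symm h21, ha]
      · simp [Ne.symm h21, hbdef]
      · simpa using hA.1
      · simpa using hA.2
    have hd : Disjoint ({i₁} ∪ {i₂}) R' := by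
      rw [Finset.disjoint_left]
      intro j hj hj'
      rcases Finset.mem_union.1 hj with h1 | h1
      · exact hR'1 j hj' (Finset.mem_singleton.1 h1)
      · exact hR'2 j hj' (Finset.mem_singleton.1 h1)
    have hun : ({i₁} ∪ {i₂}) ∪ R' = s := by
      ext j
      simp only [Finset.mem_union, Finset.mem_singleton, hR', hRdef, Finset.mem_erase]
      constructor
      · rintro ((h1 | h1) | h1)
        · rw [h1]; exact h₁
        · rw [h1]; exact h₂s
        · exact h1.2.2
      · intro h1
        by_cases h2 : j = i₁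
        · exact Or.inl (Or.inl h2)
        · by_cases h3 : j = i₂
          · exact Or.inl (Or.inr h3)
          · exact Or.inr ⟨h3, h2, h1⟩
    have := Packs.above hd hb0.le (by linarith) (by linarith : b + (r - b) ≤ r) hpair hRA'
    rwa [hun] at this
  · -- two rectangles in a column at the left
    have key : ∀ m : ℝ, a ≤ m → d ≤ m → m ≤ 1 → (∀ i ∈ R', q i ≤ r - m) →
        S'' ≤ (r - m) * (r - 1) → ∃ a b : ι → ℝ, Oriented p q a b ∧ Packs s a b r r := by
      intro m hm1 hm2 hm3 hm4 hm5
      exact column hr1 hr2 hpq h₁ h₂s h21 (by linarith) hm1 hm2 (by linarith) hF1 hm4 hm5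
    by_cases hC : c ≤ r - a
    · have hdb : b < d := by
        by_contra h
        push Not at h
        exact hA ⟨hC, h⟩
      rcases le_total d a with hda | hda
      · -- B1
        refine key a le_rfl hda ha1 (fun i hi => (hqc i hi).trans hC) ?_
        have k1 : b * (r - b) ≤ 2 * (d * c) := by
          have : b * (r - b) ≤ d * (2 * c) :=
            mul_le_mul hdb.le h0.le (by linarith) (by linarith)
          linarith
        exact ineq_B1 hr hr1 hr2 hb hba (by linarith) k1
      · -- B2
        refine key d hda le_rfl hd1' (fun i hi => ?_) ?_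
        · have k0 := hqS i hi
          have k2 : 0 < q i := (hpq i (hR's i hi)).1
          have k4 : d * q i ≤ d * c := mul_le_mul_of_nonneg_left (hqc i hi) (by linarith)
          exact ineq_B2' hr hr1 hr2 (by linarith) hd1' k2 (by linarith)
        · have k1 : d * (r - b) ≤ 2 * (d * c) := by
            have := mul_le_mul_of_nonneg_left h0.le (by linarith : (0:ℝ) ≤ d)
            linarith
          exact ineq_B2 hr hr1 hr2 hb hba hd1' (by linarith) k1
    · -- C
      push Not at hC
      have hda : d ≤ a := by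
        by_contra hcon
        push Not at hcon
        have k1 : a * (r - a) < d * c :=
          mul_lt_mul hcon hC.le (by linarith) (by linarith)
        have k2 := mul_nonneg (by linarith : (0:ℝ) ≤ 2 * a - r) (by linarith : (0:ℝ) ≤ r - a)
        have k3 : a * r ≤ 2 * (a * b) := by
          have := mul_le_mul_of_nonneg_left hb.le (by linarith : (0:ℝ) ≤ a)
          linarith
        linarith
      have k1 : (r - a) * (r - a) ≤ d * c := by
        have := mul_le_mul hC.le hC.le (by linarith) (by linarith)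
        linarith
      have k2 := ineq_C hr hr1 hr2 hb hba ha1 (by linarith : S'' ≤ 1 - a * b - (r - a) * (r - a))
      refine key a le_rfl hda ha1 (fun i hi => ?_) k2.2
      have k4 := hqS i hi
      have k5 : 0 < q i := (hpq i (hR's i hi)).1
      by_contra hcon
      push Not at hcon
      have := mul_lt_mul'' hcon hcon (by linarith) (by linarith)
      linarith [k2.1]

end Pool.Agent.L7h89.St
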