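import Pool.Agent.L7h89.Moser

/-!
# The packing theorem for arbitrary families, by compactness
-/

set_option autoImplicit false

open Finset Topology

namespace Pool.Agent.L7h89.St

variable {ι : Type*}

/-- The width of the `i`-th rectangle in the orientation `o`. -/
noncomputable def wid (p q : ι → ℝ) (i : ι) (o : Bool) : ℝ := if o then p i else q i

/-- The height of the `i`-th rectangle in the orientation `o`. -/
noncomputable def hei (p q : ι → ℝ) (i : ι) (o : Bool) : ℝ := if o then q i else p i

theorem moser_infinite {r : ℝ} (hr : r * r = 2) (hr1 : (1.414 : ℝ) < r)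
    (hr2 : r < (1.4143 : ℝ)) {p q : ι → ℝ}
    (hpq : ∀ i, 0 < q i ∧ q i ≤ p i ∧ p i ≤ 1)
    (hS : ∀ s : Finset ι, ∑ i ∈ s, p i * q i ≤ 1) :
    ∃ (o : ι → Bool) (x y : ι → ℝ),
      (∀ i, 0 ≤ x i ∧ x i + wid p q i (o i) ≤ r ∧ 0 ≤ y i ∧ y i + hei p q i (o i) ≤ r) ∧
      ∀ i j, i ≠ j → Sep (fun i => wid p q i (o i)) (fun i => hei p q i (o i)) x y i j := by
  classical
  let K : Set (ι → Bool × ℝ × ℝ) :=
    Set.univ.pi fun _ => (Set.univ : Set Bool) ×ˢ (Set.Icc 0 r ×ˢ Set.Icc 0 r)
  have hK : IsCompact K :=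
    isCompact_univ_pi fun _ => isCompact_univ.prod (isCompact_Icc.prod isCompact_Icc)
  let G : ι → Set (ι → Bool × ℝ × ℝ) := fun i =>
    {ω | 0 ≤ (ω i).2.1 ∧ (ω i).2.1 + wid p q i (ω i).1 ≤ r ∧ 0 ≤ (ω i).2.2 ∧
      (ω i).2.2 + hei p q i (ω i).1 ≤ r}
  let H : ι → ι → Set (ι → Bool × ℝ × ℝ) := fun i j =>
    {ω | (ω i).2.1 + wid p q i (ω i).1 ≤ (ω j).2.1 ∨ (ω j).2.1 + wid p q j (ω j).1 ≤ (ω i).2.1 ∨
      (ω i).2.2 + hei p q i (ω i).1 ≤ (ω j).2.2 ∨ (ω j).2.2 + hei p q j (ω j).1 ≤ (ω i).2.2}
  have c0 : ∀ i, Continuous fun ω : ι → Bool × ℝ × ℝ => ω i := fun i => continuous_apply i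
  have c1 : ∀ i, Continuous fun ω : ι → Bool × ℝ × ℝ => (ω i).2.1 := fun i =>
    (continuous_fst.comp continuous_snd).comp (c0 i)
  have c2 : ∀ i, Continuous fun ω : ι → Bool × ℝ × ℝ => (ω i).2.2 := fun i =>
    (continuous_snd.comp continuous_snd).comp (c0 i)
  have c3 : ∀ i, Continuous fun ω : ι → Bool × ℝ × ℝ => wid p q i (ω i).1 := fun i =>
    (continuous_of_discreteTopology (f := wid p q i)).comp (continuous_fst.comp (c0 i))
  have c4 : ∀ i, Continuous fun ω : ι → Bool × ℝ × ℝ => hei p q i (ω i).1 := fun i =>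
    (continuous_of_discreteTopology (f := hei p q i)).comp (continuous_fst.comp (c0 i))
  have hG : ∀ i, IsClosed (G i) := fun i =>
    (isClosed_le continuous_const (c1 i)).inter
      ((isClosed_le ((c1 i).add (c3 i)) continuous_const).inter
        ((isClosed_le continuous_const (c2 i)).inter
          (isClosed_le ((c2 i).add (c4 i)) continuous_const)))
  have hH : ∀ i j, IsClosed (H i j) := fun i j =>
    (isClosed_le ((c1 i).add (c3 i)) (c1 j)).union
      ((isClosed_le ((c1 j).add (c3 j)) (c1 i)).union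
        ((isClosed_le ((c2 i).add (c4 i)) (c2 j)).union
          (isClosed_le ((c2 j).add (c4 j)) (c2 i))))
  let t : Finset ι → Set (ι → Bool × ℝ × ℝ) := fun s =>
    K ∩ ((⋂ i ∈ s, G i) ∩ (⋂ i ∈ s, ⋂ j ∈ s, ⋂ (_ : i ≠ j), H i j))
  have htcl : ∀ s, IsClosed (t s) := fun s => by
    refine hK.isClosed.inter ((isClosed_biInter fun i _ => hG i).inter ?_)
    exact isClosed_biInter fun i _ => isClosed_biInter fun j _ =>
      isClosed_iInter fun _ => hH i j
  have htc : ∀ s, IsCompact (t s) := fun s =>
    hK.of_isClosed_subset (htcl s) Set.inter_subset_left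
  have htmono : ∀ s s' : Finset ι, s ⊆ s' → t s' ⊆ t s := by
    intro s s' hss ω hω
    refine ⟨hω.1, ?_, ?_⟩
    · have := hω.2.1
      simp only [Set.mem_iInter] at this ⊢
      exact fun i hi => this i (hss hi)
    · have := hω.2.2
      simp only [Set.mem_iInter] at this ⊢
      exact fun i hi j hj hij => this i (hss hi) j (hss hj) hij
  have htd : Directed (· ⊇ ·) t := fun s s' =>
    ⟨s ∪ s', htmono _ _ Finset.subset_union_left, htmono _ _ Finset.subset_union_right⟩
  have htn : ∀ s, (t s).Nonempty := by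
    intro s
    obtain ⟨a, b, hor, x, y, h1, h2⟩ := moser_finite hr hr1 hr2 (s := s) (fun i _ => hpq i) (hS s)
    let o : ι → Bool := fun i => decide (a i = p i ∧ b i = q i)
    have how : ∀ i, wid p q i (o i) = a i := by
      intro i
      by_cases h : a i = p i ∧ b i = q i
      · simp [o, wid, h]
      · rcases hor i with h' | h'
        · exact absurd h' h
        · simp only [o, wid, h, decide_false, Bool.false_eq_true, if_false]
          exact h'.1.symm
    have hoh : ∀ i, hei p q i (o i) = b i := by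
      intro i
      by_cases h : a i = p i ∧ b i = q i
      · simp [o, hei, h]
      · rcases hor i with h' | h'
        · exact absurd h' h
        · simp only [o, hei, h, decide_false, Bool.false_eq_true, if_false]
          exact h'.2.symm
    have hapos : ∀ i, 0 ≤ a i := by
      intro i
      rcases hor i with h' | h'
      · rw [h'.1]; linarith [(hpq i).1, (hpq i).2.1]
      · rw [h'.1]; exact (hpq i).1.le
    have hbpos : ∀ i, 0 ≤ b i := by
      intro i
      rcases hor i with h' | h'
      · rw [h'.2]; exact (hpq i).1.le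
      · rw [h'.2]; linarith [(hpq i).1, (hpq i).2.1]
    refine ⟨fun i => (o i, if i ∈ s then x i else 0, if i ∈ s then y i else 0), ?_, ?_, ?_⟩
    · intro i _
      refine ⟨Set.mem_univ _, ?_, ?_⟩
      · by_cases hi : i ∈ s
        · simp only [hi, if_true]
          exact ⟨(h1 i hi).1, by linarith [(h1 i hi).2.1, hapos i]⟩
        · simp only [hi, if_false]
          exact ⟨le_rfl, by linarith⟩
      · by_cases hi : i ∈ s
        · simp only [hi, if_true]
          exact ⟨(h1 i hi).2.2.1, by linarith [(h1 i hi).2.2.2, hbpos i]⟩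
        · simp only [hi, if_false]
          exact ⟨le_rfl, by linarith⟩
    · simp only [Set.mem_iInter]
      intro i hi
      simp only [G, Set.mem_ofPred_eq, hi, if_true, how, hoh]
      exact h1 i hi
    · simp only [Set.mem_iInter]
      intro i hi j hj hij
      simp only [H, Set.mem_ofPred_eq, hi, hj, if_true, how, hoh]
      exact h2 i hi j hj hij
  obtain ⟨ω, hω⟩ := IsCompact.nonempty_iInter_of_directed_nonempty_isCompact_isClosed t htd htn
    htc htcl
  rw [Set.mem_iInter] at hω
  refine ⟨fun i => (ω i).1, fun i => (ω i).2.1, fun i => (ω i).2.2, fun i => ?_,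
    fun i j hij => ?_⟩
  · have := (hω {i}).2.1
    simp only [Set.mem_iInter] at this
    exact this i (Finset.mem_singleton_self i)
  · have := (hω {i, j}).2.2
    simp only [Set.mem_iInter] at this
    exact this i (by simp) j (by simp) hij

end Pool.Agent.L7h89.St
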