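import Mathlib

/-!
# Steinberg's packing theorem for finitely many rectangles

Rectangles with widths `a i` and heights `b i` (`i` in a finite set `s`), with `a i ≤ A ≤ u`,
`b i ≤ B ≤ v` and `2 ∑ a i * b i ≤ u v - (2A - u)₊ (2B - v)₊`, can be packed by translations
into a `u × v` box (A. Steinberg, SIAM J. Comput. 26 (1997)).
-/

set_option autoImplicit false

open Finset

namespace Pool.Agent.L7h89.St

variable {ι : Type*}

/-- The boxes `[x i, x i + a i] × [y i, y i + b i]` and the one of `j` are separated by an axis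
parallel line. -/
def Sep (a b x y : ι → ℝ) (i j : ι) : Prop :=
  x i + a i ≤ x j ∨ x j + a j ≤ x i ∨ y i + b i ≤ y j ∨ y j + b j ≤ y i

/-- A placement of the boxes `a i × b i`, `i ∈ s`, in `[x0, x1] × [y0, y1]`. -/
def Placed (s : Finset ι) (a b : ι → ℝ) (x0 x1 y0 y1 : ℝ) (x y : ι → ℝ) : Prop :=
  (∀ i ∈ s, x0 ≤ x i ∧ x i + a i ≤ x1 ∧ y0 ≤ y i ∧ y i + b i ≤ y1) ∧
  ∀ i ∈ s, ∀ j ∈ s, i ≠ j → Sep a b x y i j

/-- The boxes `a i × b i`, `i ∈ s`, pack by translations into `[0, u] × [0, v]`. -/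
def Packs (s : Finset ι) (a b : ι → ℝ) (u v : ℝ) : Prop :=
  ∃ x y : ι → ℝ, Placed s a b 0 u 0 v x y

theorem Sep.symm {a b x y : ι → ℝ} {i j : ι} (h : Sep a b x y i j) : Sep a b x y j i := by
  unfold Sep at *
  tauto

theorem Packs.swap {s : Finset ι} {a b : ι → ℝ} {u v : ℝ} (h : Packs s a b u v) :
    Packs s b a v u := by
  obtain ⟨x, y, h1, h2⟩ := h
  refine ⟨y, x, ?_, ?_⟩
  · intro i hi
    obtain ⟨p1, p2, p3, p4⟩ := h1 i hi
    exact ⟨p3, p4, p1, p2⟩
  · intro i hi j hj hij
    have := h2 i hi j hj hij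
    unfold Sep at *
    tauto

/-- Translate a packing. -/
theorem Packs.placed {s : Finset ι} {a b : ι → ℝ} {u v : ℝ} (h : Packs s a b u v) (x0 y0 : ℝ) :
    ∃ x y : ι → ℝ, Placed s a b x0 (x0 + u) y0 (y0 + v) x y := by
  obtain ⟨x, y, h1, h2⟩ := h
  refine ⟨fun i => x0 + x i, fun i => y0 + y i, ?_, ?_⟩
  · intro i hi
    obtain ⟨p1, p2, p3, p4⟩ := h1 i hi
    refine ⟨?_, ?_, ?_, ?_⟩ <;> simp only <;> linarith
  · intro i hi j hj hij
    have := h2 i hi j hj hij
    unfold Sep at *
    simp only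
    rcases this with h | h | h | h
    · left; linarith
    · right; left; linarith
    · right; right; left; linarith
    · right; right; right; linarith

theorem Placed.mono {s : Finset ι} {a b : ι → ℝ} {x0 x1 y0 y1 x0' x1' y0' y1' : ℝ} {x y : ι → ℝ}
    (h : Placed s a b x0 x1 y0 y1 x y) (h1 : x0' ≤ x0) (h2 : x1 ≤ x1') (h3 : y0' ≤ y0)
    (h4 : y1 ≤ y1') : Placed s a b x0' x1' y0' y1' x y := by
  refine ⟨fun i hi => ?_, h.2⟩
  obtain ⟨p1, p2, p3, p4⟩ := h.1 i hi
  exact ⟨by linarith, by linarith, by linarith, by linarith⟩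

/-- Glue two placements of disjoint sets of boxes. -/
theorem Placed.glue [DecidableEq ι] {s t : Finset ι} {a b : ι → ℝ} {x0 x1 y0 y1 : ℝ}
    {x y x' y' : ι → ℝ} (hd : Disjoint s t)
    (h : Placed s a b x0 x1 y0 y1 x y) (h' : Placed t a b x0 x1 y0 y1 x' y')
    (hc : ∀ i ∈ s, ∀ j ∈ t,
      x i + a i ≤ x' j ∨ x' j + a j ≤ x i ∨ y i + b i ≤ y' j ∨ y' j + b j ≤ y i) :
    Placed (s ∪ t) a b x0 x1 y0 y1 (fun i => if i ∈ s then x i else x' i)
      (fun i => if i ∈ s then y i else y' i) := by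
  have hn : ∀ j ∈ t, j ∉ s := fun j hj hjs => (Finset.disjoint_left.1 hd hjs hj)
  refine ⟨?_, ?_⟩
  · intro i hi
    by_cases his : i ∈ s
    · simpa [his] using h.1 i his
    · have hit : i ∈ t := by
        rcases Finset.mem_union.1 hi with h0 | h0
        · exact absurd h0 his
        · exact h0
      simpa [his] using h'.1 i hit
  · intro i hi j hj hij
    by_cases his : i ∈ s <;> by_cases hjs : j ∈ s
    · have := h.2 i his j hjs hij
      simpa [Sep, his, hjs] using this
    · have hjt : j ∈ t := by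
        rcases Finset.mem_union.1 hj with h0 | h0
        · exact absurd h0 hjs
        · exact h0
      have := hc i his j hjt
      simpa [Sep, his, hjs] using this
    · have hit : i ∈ t := by
        rcases Finset.mem_union.1 hi with h0 | h0
        · exact absurd h0 his
        · exact h0
      have := hc j hjs i hit
      have h3 : x' i + a i ≤ x j ∨ x j + a j ≤ x' i ∨ y' i + b i ≤ y j ∨ y j + b j ≤ y' i := by
        tauto
      simpa [Sep, his, hjs] using h3
    · have hit : i ∈ t := by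
        rcases Finset.mem_union.1 hi with h0 | h0
        · exact absurd h0 his
        · exact h0
      have hjt : j ∈ t := by
        rcases Finset.mem_union.1 hj with h0 | h0
        · exact absurd h0 hjs
        · exact h0
      have := h'.2 i hit j hjt hij
      simpa [Sep, his, hjs] using this

/-- Two packings side by side. -/
theorem Packs.beside [DecidableEq ι] {s t : Finset ι} {a b : ι → ℝ} {u₁ u₂ u v : ℝ}
    (hd : Disjoint s t) (h0 : 0 ≤ u₁) (h0' : 0 ≤ u₂) (hu : u₁ + u₂ ≤ u)
    (h : Packs s a b u₁ v) (h' : Packs t a b u₂ v) : Packs (s ∪ t) a b u v := by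
  obtain ⟨x, y, hp⟩ := h.placed 0 0
  obtain ⟨x', y', hp'⟩ := h'.placed u₁ 0
  refine ⟨_, _, Placed.glue (x := x) (y := y) (x' := x') (y' := y') hd
    (hp.mono le_rfl (by linarith) le_rfl (by linarith))
    (hp'.mono h0 (by linarith) le_rfl (by linarith)) ?_⟩
  intro i hi j hj
  left
  have h1 := (hp.1 i hi).2.1
  have h2 := (hp'.1 j hj).1
  linarith

theorem Packs.above [DecidableEq ι] {s t : Finset ι} {a b : ι → ℝ} {u v₁ v₂ v : ℝ}
    (hd : Disjoint s t) (h0 : 0 ≤ v₁) (h0' : 0 ≤ v₂) (hv : v₁ + v₂ ≤ v)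
    (h : Packs s a b u v₁) (h' : Packs t a b u v₂) : Packs (s ∪ t) a b u v :=
  (Packs.beside hd h0 h0' hv h.swap h'.swap).swap

theorem Packs.empty (a b : ι → ℝ) (u v : ℝ) : Packs (∅ : Finset ι) a b u v :=
  ⟨fun _ => 0, fun _ => 0, by simp [Placed]⟩

theorem Packs.single {a b : ι → ℝ} {u v : ℝ} {i : ι} (h1 : a i ≤ u) (h2 : b i ≤ v) :
    Packs {i} a b u v := by
  refine ⟨fun _ => 0, fun _ => 0, ?_, ?_⟩
  · intro j hj
    rw [Finset.mem_singleton] at hj
    subst hj
    simp [h1, h2]
  · intro j hj k hk hjk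
    rw [Finset.mem_singleton] at hj hk
    exact absurd (hj.trans hk.symm) hjk

theorem Packs.mono {s : Finset ι} {a b : ι → ℝ} {u v u' v' : ℝ} (h : Packs s a b u v)
    (hu : u ≤ u') (hv : v ≤ v') : Packs s a b u' v' := by
  obtain ⟨x, y, hp⟩ := h
  exact ⟨x, y, hp.mono le_rfl hu le_rfl hv⟩

/-- Stack intervals of lengths `ℓ i` in the order of decreasing weights `c i`. -/
theorem stack [DecidableEq ι] (ℓ c : ι → ℝ) :
    ∀ (n : ℕ) (s : Finset ι), s.card = n → (∀ i ∈ s, 0 < ℓ i) → (∀ i ∈ s, 0 < c i) →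
    ∃ o : ι → ℝ, (∀ i ∈ s, 0 ≤ o i ∧ o i + ℓ i ≤ ∑ j ∈ s, ℓ j ∧
        c i * (o i + ℓ i) ≤ ∑ j ∈ s, c j * ℓ j) ∧
      ∀ i ∈ s, ∀ j ∈ s, i ≠ j → o i + ℓ i ≤ o j ∨ o j + ℓ j ≤ o i := by
  intro n
  induction n with
  | zero =>
    intro s hs _ _
    rw [Finset.card_eq_zero] at hs
    subst hs
    exact ⟨fun _ => 0, by simp, by simp⟩
  | succ n ih =>
    intro s hs hℓ hc
    have hne : s.Nonempty := by
      rw [← Finset.card_pos]
      omega
    obtain ⟨k, hk, hmin⟩ := Finset.exists_min_image s c hne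
    have hcard : (s.erase k).card = n := by
      rw [Finset.card_erase_of_mem hk]
      omega
    obtain ⟨o, ho1, ho2⟩ := ih (s.erase k) hcard
      (fun i hi => hℓ i (Finset.mem_of_mem_erase hi))
      (fun i hi => hc i (Finset.mem_of_mem_erase hi))
    have hsumℓ : ∑ j ∈ s.erase k, ℓ j + ℓ k = ∑ j ∈ s, ℓ j := Finset.sum_erase_add s ℓ hk
    have hsumc : ∑ j ∈ s.erase k, c j * ℓ j + c k * ℓ k = ∑ j ∈ s, c j * ℓ j :=
      Finset.sum_erase_add s (fun j => c j * ℓ j) hk
    have hpos : 0 ≤ ∑ j ∈ s.erase k, ℓ j :=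
      Finset.sum_nonneg fun i hi => (hℓ i (Finset.mem_of_mem_erase hi)).le
    have hck := hc k hk
    have hℓk := hℓ k hk
    refine ⟨fun i => if i = k then ∑ j ∈ s.erase k, ℓ j else o i, ?_, ?_⟩
    · intro i hi
      by_cases hik : i = k
      · subst hik
        simp only [if_true]
        refine ⟨hpos, hsumℓ.le, ?_⟩
        rw [hsumℓ, Finset.mul_sum]
        exact Finset.sum_le_sum fun j hj =>
          mul_le_mul_of_nonneg_right (hmin j hj) (hℓ j hj).le
      · simp only [hik, if_false]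
        obtain ⟨p1, p2, p3⟩ := ho1 i (Finset.mem_erase.2 ⟨hik, hi⟩)
        refine ⟨p1, by linarith, ?_⟩
        have : 0 < c k * ℓ k := mul_pos hck hℓk
        linarith
    · intro i hi j hj hij
      by_cases hik : i = k
      · subst hik
        have hji : j ≠ i := fun h => hij h.symm
        simp only [if_true, hji, if_false]
        right
        exact (ho1 j (Finset.mem_erase.2 ⟨hji, hj⟩)).2.1
      · by_cases hjk : j = k
        · subst hjk
          simp only [if_true, hik, if_false]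
          left
          exact (ho1 i (Finset.mem_erase.2 ⟨hik, hi⟩)).2.1
        · simp only [hik, hjk, if_false]
          exact ho2 i (Finset.mem_erase.2 ⟨hik, hi⟩) j (Finset.mem_erase.2 ⟨hjk, hj⟩) hij

/-- Steinberg's condition. -/
def Cond (s : Finset ι) (a b : ι → ℝ) (u v A B : ℝ) : Prop :=
  (∀ i ∈ s, 0 < a i ∧ a i ≤ A ∧ 0 < b i ∧ b i ≤ B) ∧ A ≤ u ∧ B ≤ v ∧ 0 ≤ u ∧ 0 ≤ v ∧
    2 * ∑ i ∈ s, a i * b i ≤ u * v - max (2 * A - u) 0 * max (2 * B - v) 0

theorem Cond.swap {s : Finset ι} {a b : ι → ℝ} {u v A B : ℝ} (h : Cond s a b u v A B) :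
    Cond s b a v u B A := by
  obtain ⟨h1, h2, h3, h4, h5, h6⟩ := h
  refine ⟨fun i hi => ?_, h3, h2, h5, h4, ?_⟩
  · obtain ⟨p1, p2, p3, p4⟩ := h1 i hi
    exact ⟨p3, p4, p1, p2⟩
  · have : ∑ i ∈ s, b i * a i = ∑ i ∈ s, a i * b i :=
      Finset.sum_congr rfl fun i _ => mul_comm _ _
    rw [this]
    linarith [mul_comm u v, mul_comm (max (2 * A - u) 0) (max (2 * B - v) 0)]

/-- The induction hypothesis: the theorem for fewer than `n` rectangles. -/
def Good (ι : Type*) (n : ℕ) : Prop :=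
  ∀ (s : Finset ι) (a b : ι → ℝ) (u v A B : ℝ), s.card < n → Cond s a b u v A B → Packs s a b u v

/-- Procedure 1: some rectangle has width more than `u / 2`. -/
theorem step_one [DecidableEq ι] {n : ℕ} (hG : Good ι n) {s : Finset ι} (hs : s.card = n)
    {a b : ι → ℝ} {u v A B : ℝ} (hC : Cond s a b u v A B) (hex : ∃ i ∈ s, u < 2 * a i) :
    Packs s a b u v := by
  obtain ⟨hab, hAu, hBv, hu0, hv0, hS⟩ := hC
  set M := s.filter fun i => u < 2 * a i with hM
  set s0 := s.filter fun i => ¬ u < 2 * a i with hs0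
  set h := ∑ i ∈ M, b i with hh
  set v' := v - h with hv'
  set T := s0.filter fun i => v' < b i with hT
  set r := s0.filter fun i => ¬ v' < b i with hr
  set w := ∑ i ∈ T, a i with hw
  obtain ⟨i₀, hi₀, hi₀'⟩ := hex
  have hi₀M : i₀ ∈ M := by simp [hM, hi₀, hi₀']
  have hMs : ∀ i ∈ M, i ∈ s := fun i hi => (Finset.mem_filter.1 hi).1
  have hs0s : ∀ i ∈ s0, i ∈ s := fun i hi => (Finset.mem_filter.1 hi).1
  have hTs0 : ∀ i ∈ T, i ∈ s0 := fun i hi => (Finset.mem_filter.1 hi).1
  have hrs0 : ∀ i ∈ r, i ∈ s0 := fun i hi => (Finset.mem_filter.1 hi).1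
  have hupos : 0 < u := by
    have := hab i₀ hi₀
    linarith [this.1, this.2.1]
  -- areas
  have e1 : ∑ i ∈ M, a i * b i + ∑ i ∈ s0, a i * b i = ∑ i ∈ s, a i * b i :=
    Finset.sum_filter_add_sum_filter_not s _ _
  have e2 : ∑ i ∈ T, a i * b i + ∑ i ∈ r, a i * b i = ∑ i ∈ s0, a i * b i :=
    Finset.sum_filter_add_sum_filter_not s0 _ _
  have hP : 0 ≤ max (2 * A - u) 0 * max (2 * B - v) 0 :=
    mul_nonneg (le_max_right _ _) (le_max_right _ _)
  have nonneg : ∀ t : Finset ι, (∀ i ∈ t, i ∈ s) → 0 ≤ ∑ i ∈ t, a i * b i := by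
    intro t ht
    exact Finset.sum_nonneg fun i hi =>
      (mul_pos (hab i (ht i hi)).1 (hab i (ht i hi)).2.2.1).le
  have hSM : u * h < 2 * ∑ i ∈ M, a i * b i := by
    rw [hh, Finset.mul_sum, Finset.mul_sum]
    refine Finset.sum_lt_sum_of_nonempty ⟨i₀, hi₀M⟩ fun i hi => ?_
    have h1 := (Finset.mem_filter.1 hi).2
    have h2 := (hab i (hMs i hi)).2.2.1
    nlinarith
  have hST : w * v' ≤ ∑ i ∈ T, a i * b i := by
    rw [hw, Finset.sum_mul]
    refine Finset.sum_le_sum fun i hi => ?_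
    have h1 := (Finset.mem_filter.1 hi).2
    have h2 := (hab i (hs0s i (hTs0 i hi))).1
    nlinarith
  have hT0 := nonneg T (fun i hi => hs0s i (hTs0 i hi))
  have hr0 := nonneg r (fun i hi => hs0s i (hrs0 i hi))
  have hv'pos : 0 < v' := by
    have : 0 < u * v' := by
      rw [hv', mul_sub]
      linarith
    exact (pos_iff_pos_of_mul_pos this).1 hupos
  have hw0 : 0 ≤ w := Finset.sum_nonneg fun i hi => (hab i (hs0s i (hTs0 i hi))).1.le
  have huv : u * v = u * h + u * v' := by rw [hv']; ring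
  have hwu : 2 * w ≤ u := by
    have : 2 * w * v' ≤ u * v' := by linarith
    exact le_of_mul_le_mul_right this hv'pos
  have hh0 : 0 ≤ h := Finset.sum_nonneg fun i hi => (hab i (hMs i hi)).2.2.1.le
  -- the rest
  have hcard : r.card < n := by
    rw [← hs]
    refine Finset.card_lt_card ⟨fun i hi => hs0s i (hrs0 i hi), fun hsub => ?_⟩
    have h1 := hrs0 _ (hsub hi₀)
    exact (Finset.mem_filter.1 h1).2 hi₀'
  have hrest : Packs r a b (u - w) v' := by
    refine hG r a b (u - w) v' (u / 2) v' hcard ⟨?_, by linarith, le_rfl, by linarith,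
      hv'pos.le, ?_⟩
    · intro i hi
      have h1 := (Finset.mem_filter.1 (hrs0 i hi)).2
      have h2 := (Finset.mem_filter.1 hi).2
      have h3 := hab i (hs0s i (hrs0 i hi))
      exact ⟨h3.1, by linarith, h3.2.2.1, by linarith⟩
    · have e3 : max (2 * (u / 2) - (u - w)) 0 = w := by
        rw [max_eq_left] <;> linarith
      have e4 : max (2 * v' - v') 0 = v' := by
        rw [max_eq_left] <;> linarith
      rw [e3, e4]
      have : (u - w) * v' - w * v' = u * v' - 2 * (w * v') := by ring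
      rw [this]
      linarith
  obtain ⟨xr, yr, hpr⟩ := hrest.placed 0 h
  have hpr' : Placed r a b 0 u 0 v xr yr :=
    hpr.mono le_rfl (by linarith) hh0 (by rw [hv']; linarith)
  -- the stack of wide rectangles
  obtain ⟨oM, hoM1, hoM2⟩ := stack b a _ M rfl (fun i hi => (hab i (hMs i hi)).2.2.1)
    (fun i hi => (hab i (hMs i hi)).1)
  obtain ⟨oT, hoT1, hoT2⟩ := stack a b _ T rfl
    (fun i hi => (hab i (hs0s i (hTs0 i hi))).1)
    (fun i hi => (hab i (hs0s i (hTs0 i hi))).2.2.1)
  have hpM : Placed M a b 0 u 0 v (fun _ => 0) oM := by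
    refine ⟨fun i hi => ?_, fun i hi j hj hij => ?_⟩
    · obtain ⟨p1, p2, p3⟩ := hoM1 i hi
      have h1 := (hab i (hMs i hi)).2.1
      refine ⟨le_rfl, by simp only; linarith, p1, by linarith⟩
    · rcases hoM2 i hi j hj hij with h1 | h1
      · exact Or.inr (Or.inr (Or.inl h1))
      · exact Or.inr (Or.inr (Or.inr h1))
  have hpT : Placed T a b 0 u 0 v (fun i => u - oT i - a i) (fun i => v - b i) := by
    refine ⟨fun i hi => ?_, fun i hi j hj hij => ?_⟩
    · obtain ⟨p1, p2, p3⟩ := hoT1 i hi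
      have h1 := (hab i (hs0s i (hTs0 i hi))).2.2.2
      refine ⟨by simp only; linarith, by simp only; linarith, by simp only; linarith,
        by simp only; linarith⟩
    · rcases hoT2 i hi j hj hij with h1 | h1
      · right; left; simp only; linarith
      · left; simp only; linarith
  have hdMT : Disjoint M T := by
    rw [Finset.disjoint_left]
    intro i hi hi'
    exact (Finset.mem_filter.1 (hTs0 i hi')).2 (Finset.mem_filter.1 hi).2
  have hdr : Disjoint (M ∪ T) r := by
    rw [Finset.disjoint_left]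
    intro i hi hi'
    rcases Finset.mem_union.1 hi with h1 | h1
    · exact (Finset.mem_filter.1 (hrs0 i hi')).2 (Finset.mem_filter.1 h1).2
    · exact (Finset.mem_filter.1 hi').2 (Finset.mem_filter.1 h1).2
  have hunion : (M ∪ T) ∪ r = s := by
    ext i
    simp only [Finset.mem_union, hM, hT, hr, hs0, Finset.mem_filter]
    tauto
  have hMT := Placed.glue hdMT hpM hpT (by
    intro i hi j hj
    obtain ⟨p1, p2, p3⟩ := hoM1 i hi
    obtain ⟨q1, q2, q3⟩ := hoT1 j hj
    by_contra hcon
    push Not at hcon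
    obtain ⟨c1, -, c3, -⟩ := hcon
    have hai := hab i (hMs i hi)
    have hbj := hab j (hs0s j (hTs0 j hj))
    have hai2 := (Finset.mem_filter.1 hi).2
    have k1 : a i * (v - b j) < a i * (oM i + b i) :=
      mul_lt_mul_of_pos_left (by linarith) hai.1
    have k2 : b j * (u - a i) < b j * (oT j + a j) :=
      mul_lt_mul_of_pos_left (by linarith) hbj.2.2.1
    have k3 : ∑ k ∈ T, b k * a k = ∑ k ∈ T, a k * b k :=
      Finset.sum_congr rfl fun k _ => mul_comm _ _
    have k4 : (2 * a i - u) * (2 * b j - v) ≤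
        max (2 * A - u) 0 * max (2 * B - v) 0 := by
      have m1 : (2 * a i - u) * (2 * b j - v) ≤ (2 * a i - u) * max (2 * B - v) 0 := by
        refine mul_le_mul_of_nonneg_left ?_ (by linarith)
        exact le_trans (by linarith [hbj.2.2.2]) (le_max_left _ _)
      have m2 : (2 * a i - u) * max (2 * B - v) 0 ≤
          max (2 * A - u) 0 * max (2 * B - v) 0 := by
        refine mul_le_mul_of_nonneg_right ?_ (le_max_right _ _)
        exact le_trans (by linarith [hai.2.1]) (le_max_left _ _)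
      exact m1.trans m2
    have k5 : u * v - (2 * a i - u) * (2 * b j - v) =
        2 * (a i * (v - b j) + b j * (u - a i)) := by ring
    linarith)
  have hall := Placed.glue hdr hMT hpr' (by
    intro i hi j hj
    obtain ⟨q1, q2, q3, q4⟩ := hpr.1 j hj
    by_cases hiM : i ∈ M
    · obtain ⟨p1, p2, p3⟩ := hoM1 i hiM
      right; right; left
      simp only [hiM, if_true]
      linarith
    · have hiT : i ∈ T := by
        rcases Finset.mem_union.1 hi with h1 | h1
        · exact absurd h1 hiM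
        · exact h1
      obtain ⟨p1, p2, p3⟩ := hoT1 i hiT
      right; left
      simp only [hiM, if_false]
      linarith)
  rw [hunion] at hall
  exact ⟨_, _, hall⟩

/-- Procedure 2: two rectangles on top of each other at the left side. -/
theorem step_two [DecidableEq ι] {n : ℕ} (hG : Good ι n) {s : Finset ι} (hs : s.card = n)
    {a b : ι → ℝ} {u v : ℝ} (hv : 0 ≤ v)
    (hab : ∀ i ∈ s, 0 < a i ∧ 2 * a i ≤ u ∧ 0 < b i ∧ 2 * b i ≤ v)
    {i k : ι} (hi : i ∈ s) (hk : k ∈ s) (hik : i ≠ k)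
    (hS : 2 * (∑ j ∈ s, a j * b j - a i * b i - a k * b k) ≤ (u - max (a i) (a k)) * v) :
    Packs s a b u v := by
  have hi' := hab i hi
  have hk' := hab k hk
  set m := max (a i) (a k) with hm
  have hm2 : 2 * m ≤ u := by
    rcases max_cases (a i) (a k) with ⟨h, -⟩ | ⟨h, -⟩
    · rw [hm, h]; exact hi'.2.1
    · rw [hm, h]; exact hk'.2.1
  have hm0 : 0 < m := lt_of_lt_of_le hi'.1 (le_max_left _ _)
  set t := (s.erase i).erase k with ht
  have hki : k ∈ s.erase i := Finset.mem_erase.2 ⟨fun h => hik h.symm, hk⟩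
  have hsum : ∑ j ∈ t, a j * b j = ∑ j ∈ s, a j * b j - a i * b i - a k * b k := by
    have h1 := Finset.sum_erase_add s (fun j => a j * b j) hi
    have h2 := Finset.sum_erase_add (s.erase i) (fun j => a j * b j) hki
    linarith
  have hts : ∀ j ∈ t, j ∈ s := fun j hj =>
    Finset.mem_of_mem_erase (Finset.mem_of_mem_erase hj)
  have hcard : t.card < n := by
    rw [← hs]
    refine Finset.card_lt_card ⟨hts, fun hsub => ?_⟩
    have := hsub hk
    simp [ht] at this
  have hrest : Packs t a b (u - m) v := by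
    refine hG t a b (u - m) v (u / 2) (v / 2) hcard ⟨?_, by linarith, by linarith, by linarith,
      hv, ?_⟩
    · intro j hj
      obtain ⟨p1, p2, p3, p4⟩ := hab j (hts j hj)
      exact ⟨p1, by linarith, p3, by linarith⟩
    · have : max (2 * (v / 2) - v) 0 = 0 := by
        rw [max_eq_right]; linarith
      rw [this, mul_zero, sub_zero, hsum]
      exact hS
  have hpair : Packs ({i} ∪ {k}) a b m v := by
    refine Packs.above (v₁ := v / 2) (v₂ := v / 2) ?_ (by linarith) (by linarith) (by linarith)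
      (Packs.single (le_max_left _ _) (by linarith)) (Packs.single (le_max_right _ _)
      (by linarith))
    rw [Finset.disjoint_singleton]
    exact hik
  have hd : Disjoint ({i} ∪ {k}) t := by
    rw [Finset.disjoint_left]
    intro j hj hj'
    rcases Finset.mem_union.1 hj with h1 | h1
    · rw [Finset.mem_singleton] at h1
      subst h1
      simp [ht] at hj'
    · rw [Finset.mem_singleton] at h1
      subst h1
      simp [ht] at hj'
  have hun : ({i} ∪ {k}) ∪ t = s := by
    ext j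
    simp only [Finset.mem_union, Finset.mem_singleton, ht, Finset.mem_erase]
    constructor
    · rintro ((h1 | h1) | h1)
      · rw [h1]; exact hi
      · rw [h1]; exact hk
      · exact h1.2.2
    · intro h1
      by_cases h2 : j = i
      · exact Or.inl (Or.inl h2)
      · by_cases h3 : j = k
        · exact Or.inl (Or.inr h3)
        · exact Or.inr ⟨h3, h2, h1⟩
  have := Packs.beside hd hm0.le (by linarith) (by linarith : m + (u - m) ≤ u) hpair hrest
  rwa [hun] at this

/-- Procedure 3: cut the box into two by a vertical line. -/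
theorem step_three [DecidableEq ι] {n : ℕ} (hG : Good ι n) {s : Finset ι} (hs : s.card = n)
    (hn : 2 ≤ n) {a b : ι → ℝ} {u v : ℝ} (hv : 0 < v)
    (hab : ∀ i ∈ s, 0 < a i ∧ 2 * a i ≤ u ∧ 0 < b i ∧ 2 * b i ≤ v)
    (hS : 2 * ∑ j ∈ s, a j * b j ≤ u * v)
    (hW : 8 * ∑ j ∈ s.filter (fun i => u < 4 * a i), a j * b j ≤ 3 * (u * v))
    (hne : ∃ i ∈ s, 4 * a i ≤ u) : Packs s a b u v := by
  set W := s.filter (fun i => u < 4 * a i) with hWdef
  set S := ∑ j ∈ s, a j * b j with hSdef
  have hsmall : ∀ i ∈ s, i ∉ W → 8 * (a i * b i) ≤ u * v := by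
    intro i hi hiW
    have h1 : 4 * a i ≤ u := by
      by_contra h
      push Not at h
      exact hiW (Finset.mem_filter.2 ⟨hi, h⟩)
    obtain ⟨p1, p2, p3, p4⟩ := hab i hi
    have : 4 * a i * (2 * b i) ≤ u * v :=
      mul_le_mul h1 p4 (by linarith) (by linarith)
    linarith
  have hWs : W ⊆ s := Finset.filter_subset _ _
  have hexists : ∃ L : Finset ι, W ⊆ L ∧ L ⊂ s ∧ L.Nonempty ∧
      4 * S - u * v ≤ 4 * ∑ j ∈ L, a j * b j ∧ 8 * ∑ j ∈ L, a j * b j ≤ 3 * (u * v) := by
    classical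
    set F := s.powerset.filter (fun L => W ⊆ L ∧ 4 * S - u * v ≤ 4 * ∑ j ∈ L, a j * b j) with hF
    have hsF : s ∈ F := by
      rw [hF, Finset.mem_filter]
      refine ⟨Finset.mem_powerset.2 (Finset.Subset.refl _), hWs, ?_⟩
      obtain ⟨i, hi, -⟩ := hne
      obtain ⟨p1, p2, p3, p4⟩ := hab i hi
      have : 0 ≤ u * v := mul_nonneg (by linarith) hv.le
      linarith
    obtain ⟨L, hLF, hLmin⟩ := Finset.exists_min_image F Finset.card ⟨s, hsF⟩
    rw [hF, Finset.mem_filter, Finset.mem_powerset] at hLF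
    obtain ⟨hLs, hWL, hLS⟩ := hLF
    -- removing an element outside W
    have hrem : ∀ i ∈ L, i ∉ W → 4 * (∑ j ∈ L, a j * b j) < 4 * S - u * v + 4 * (a i * b i) := by
      intro i hi hiW
      by_contra hcon
      push Not at hcon
      have h1 := Finset.sum_erase_add L (fun j => a j * b j) hi
      have hmem : L.erase i ∈ F := by
        rw [hF, Finset.mem_filter, Finset.mem_powerset]
        refine ⟨(Finset.erase_subset _ _).trans hLs, ?_, by linarith⟩
        intro j hj
        refine Finset.mem_erase.2 ⟨fun h => ?_, hWL hj⟩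
        rw [h] at hj
        exact hiW hj
      have h2 := hLmin _ hmem
      have h3 := Finset.card_erase_lt_of_mem hi
      omega
    by_cases hLne : L.Nonempty
    · refine ⟨L, hWL, ?_, hLne, hLS, ?_⟩
      · refine Finset.ssubset_iff_subset_ne.2 ⟨hLs, fun hLeq => ?_⟩
        obtain ⟨i, hi, hi4⟩ := hne
        have hiW : i ∉ W := fun h => by
          have := (Finset.mem_filter.1 h).2
          linarith
        have h1 := hrem i (hLeq ▸ hi) hiW
        have h2 := hsmall i hi hiW
        rw [hLeq] at h1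
        obtain ⟨p1, p2, p3, p4⟩ := hab i hi
        have h3 : 0 < a i * b i := mul_pos p1 p3
        linarith
      · by_cases hLW : L ⊆ W
        · have : L = W := Finset.Subset.antisymm hLW hWL
          rw [this]
          exact hW
        · obtain ⟨i, hi, hiW⟩ := Finset.not_subset.1 hLW
          have h1 := hrem i hi hiW
          have h2 := hsmall i (hLs hi) hiW
          linarith
    · rw [Finset.not_nonempty_iff_eq_empty] at hLne
      subst hLne
      obtain ⟨i, hi, hi4⟩ := hne
      have hiW : i ∉ W := fun h => by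
        have := (Finset.mem_filter.1 h).2
        linarith
      have h2 := hsmall i hi hiW
      obtain ⟨p1, p2, p3, p4⟩ := hab i hi
      have h3 : 0 < a i * b i := mul_pos p1 p3
      simp only [Finset.sum_empty, mul_zero] at hLS
      refine ⟨{i}, ?_, ?_, ⟨i, Finset.mem_singleton_self i⟩, ?_, ?_⟩
      · intro j hj
        exact absurd (hWL hj) (Finset.notMem_empty _)
      · refine Finset.ssubset_iff_subset_ne.2 ⟨Finset.singleton_subset_iff.2 hi, fun h => ?_⟩
        have : s.card = 1 := by rw [← h, Finset.card_singleton]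
        omega
      · rw [Finset.sum_singleton]; linarith
      · rw [Finset.sum_singleton]
        have : 0 ≤ u * v := by linarith
        linarith
  obtain ⟨L, hWL, hLs, hLne, hL1, hL2⟩ := hexists
  set SL := ∑ j ∈ L, a j * b j with hSL
  set R := s \ L with hR
  have hsumR : ∑ j ∈ R, a j * b j = S - SL := by
    have := Finset.sum_sdiff (f := fun j => a j * b j) hLs.1
    linarith
  obtain ⟨i₁, hi₁, hi₁'⟩ := hne
  have hu : 0 < u := by
    obtain ⟨p1, p2, p3, p4⟩ := hab i₁ hi₁
    linarith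
  set u₁ := max (u / 2) (2 * SL / v) with hu₁
  have hu₁a : u / 2 ≤ u₁ := le_max_left _ _
  have hu₁b : 2 * SL ≤ u₁ * v := by
    have h1 : 2 * SL / v ≤ u₁ := le_max_right _ _
    rw [div_le_iff₀ hv] at h1
    exact h1
  have hu₁c : 4 * u₁ ≤ 3 * u := by
    have h1 : u₁ ≤ 3 * u / 4 := by
      refine max_le (by linarith) ?_
      rw [div_le_iff₀ hv]
      linarith
    linarith
  have hLcard : L.card < n := by
    rw [← hs]
    exact Finset.card_lt_card hLs
  have hRcard : R.card < n := by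
    rw [← hs, hR, Finset.card_sdiff_of_subset hLs.1]
    have h1 := Finset.card_pos.2 hLne
    have h2 := Finset.card_le_card hLs.1
    omega
  have hmax : max (2 * (v / 2) - v) 0 = 0 := by
    rw [max_eq_right]; linarith
  have hPL : Packs L a b u₁ v := by
    refine hG L a b u₁ v (u / 2) (v / 2) hLcard ⟨?_, hu₁a, by linarith, by linarith, hv.le, ?_⟩
    · intro j hj
      obtain ⟨p1, p2, p3, p4⟩ := hab j (hLs.1 hj)
      exact ⟨p1, by linarith, p3, by linarith⟩
    · rw [hmax, mul_zero, sub_zero]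
      exact hu₁b
  have hPR : Packs R a b (u - u₁) v := by
    refine hG R a b (u - u₁) v (u / 4) (v / 2) hRcard ⟨?_, by linarith, by linarith,
      by linarith, hv.le, ?_⟩
    · intro j hj
      rw [hR, Finset.mem_sdiff] at hj
      obtain ⟨p1, p2, p3, p4⟩ := hab j hj.1
      have : 4 * a j ≤ u := by
        by_contra h
        push Not at h
        exact hj.2 (hWL (Finset.mem_filter.2 ⟨hj.1, h⟩))
      exact ⟨p1, by linarith, p3, by linarith⟩
    · rw [hmax, mul_zero, sub_zero, hsumR]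
      rcases max_cases (u / 2) (2 * SL / v) with ⟨h, -⟩ | ⟨h, -⟩
      · rw [hu₁, h]
        have : (u - u / 2) * v = u * v / 2 := by ring
        rw [this]
        linarith
      · rw [hu₁, h]
        have : (u - 2 * SL / v) * v = u * v - 2 * SL := by
          field_simp
        rw [this]
        linarith
  have hd : Disjoint L R := Finset.disjoint_sdiff
  have hun : L ∪ R = s := Finset.union_sdiff_of_subset hLs.1
  have := Packs.beside hd (by linarith) (by linarith) (by linarith : u₁ + (u - u₁) ≤ u) hPL hPR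
  rwa [hun] at this

/-- Two rectangles, both of width more than `u/4` and height more than `v/4`, always allow
procedure 2 in one of the two directions. -/
theorem pair_ok {u v a₁ b₁ a₂ b₂ S : ℝ} (hS : 2 * S ≤ u * v)
    (h1 : u < 4 * a₁) (h2 : 2 * a₁ ≤ u) (h3 : v < 4 * b₁) (h4 : 2 * b₁ ≤ v)
    (h5 : u < 4 * a₂) (h7 : v < 4 * b₂) :
    2 * (S - a₁ * b₁ - a₂ * b₂) ≤ (u - max a₁ a₂) * v ∨
    2 * (S - a₁ * b₁ - a₂ * b₂) ≤ u * (v - max b₁ b₂) := by
  by_contra hcon
  push Not at hcon
  obtain ⟨c1, c2⟩ := hcon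
  rcases le_total a₁ a₂ with ha | ha <;> rcases le_total b₁ b₂ with hb | hb
  · rw [max_eq_right ha] at c1
    rw [max_eq_right hb] at c2
    nlinarith [mul_nonneg (sub_nonneg.2 h1.le) (sub_nonneg.2 h3.le),
      mul_nonneg (sub_nonneg.2 h5.le) (sub_nonneg.2 h7.le)]
  · rw [max_eq_right ha] at c1
    rw [max_eq_left hb] at c2
    nlinarith [mul_nonneg (sub_nonneg.2 h1.le) (sub_nonneg.2 h3.le),
      mul_nonneg (sub_nonneg.2 h5.le) (sub_nonneg.2 h7.le)]
  · rw [max_eq_left ha] at c1
    rw [max_eq_right hb] at c2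
    nlinarith [mul_nonneg (sub_nonneg.2 h1.le) (sub_nonneg.2 h3.le),
      mul_nonneg (sub_nonneg.2 h5.le) (sub_nonneg.2 h7.le)]
  · rw [max_eq_left ha] at c1
    rw [max_eq_left hb] at c2
    nlinarith [mul_nonneg (sub_nonneg.2 h1.le) (sub_nonneg.2 h3.le),
      mul_nonneg (sub_nonneg.2 h5.le) (sub_nonneg.2 h7.le)]

/-- A set with at most one element has small area. -/
theorem small_of_sub {s : Finset ι} {a b : ι → ℝ} {u v : ℝ} (hu : 0 ≤ u) (hv : 0 ≤ v)
    (hab : ∀ i ∈ s, 0 < a i ∧ 2 * a i ≤ u ∧ 0 < b i ∧ 2 * b i ≤ v) {t : Finset ι}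
    (hts : t ⊆ s) (hsub : ∀ i ∈ t, ∀ j ∈ t, i = j) :
    4 * ∑ j ∈ t, a j * b j ≤ u * v := by
  rcases t.eq_empty_or_nonempty with h | ⟨i, hi⟩
  · subst h
    simp [mul_nonneg hu hv]
  · have : t = {i} := by
      ext j
      rw [Finset.mem_singleton]
      exact ⟨fun hj => hsub j hj i hi, fun hj => hj ▸ hi⟩
    rw [this, Finset.sum_singleton]
    obtain ⟨p1, p2, p3, p4⟩ := hab i (hts hi)
    have : 2 * a i * (2 * b i) ≤ u * v := mul_le_mul p2 p4 (by linarith) hu
    linarith

/-- The main case distinction. -/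
theorem step [DecidableEq ι] {n : ℕ} (hG : Good ι n) {s : Finset ι} (hs : s.card = n)
    {a b : ι → ℝ} {u v A B : ℝ} (hC : Cond s a b u v A B) : Packs s a b u v := by
  by_cases h1 : ∃ i ∈ s, u < 2 * a i
  · exact step_one hG hs hC h1
  by_cases h2 : ∃ i ∈ s, v < 2 * b i
  · exact (step_one hG hs hC.swap h2).swap
  push Not at h1 h2
  obtain ⟨hab0, hAu, hBv, hu0, hv0, hS0⟩ := hC
  have hab : ∀ i ∈ s, 0 < a i ∧ 2 * a i ≤ u ∧ 0 < b i ∧ 2 * b i ≤ v := fun i hi =>
    ⟨(hab0 i hi).1, h1 i hi, (hab0 i hi).2.2.1, h2 i hi⟩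
  have hba : ∀ i ∈ s, 0 < b i ∧ 2 * b i ≤ v ∧ 0 < a i ∧ 2 * a i ≤ u := fun i hi =>
    ⟨(hab i hi).2.2.1, (hab i hi).2.2.2, (hab i hi).1, (hab i hi).2.1⟩
  rcases Nat.lt_or_ge n 2 with hn | hn
  · rcases s.eq_empty_or_nonempty with h | ⟨i, hi⟩
    · subst h
      exact Packs.empty a b u v
    · have hcard : s.card = 1 := by
        have := Finset.card_pos.2 ⟨i, hi⟩
        omega
      obtain ⟨k, hk⟩ := Finset.card_eq_one.1 hcard
      subst hk
      have := hab k (Finset.mem_singleton_self k)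
      exact Packs.single (by linarith [this.1, this.2.1]) (by linarith [this.2.2.1, this.2.2.2])
  have hne : s.Nonempty := by
    rw [← Finset.card_pos]
    omega
  obtain ⟨i₀, hi₀⟩ := hne
  have hu : 0 < u := by linarith [(hab i₀ hi₀).1, (hab i₀ hi₀).2.1]
  have hv : 0 < v := by linarith [(hab i₀ hi₀).2.2.1, (hab i₀ hi₀).2.2.2]
  set S := ∑ i ∈ s, a i * b i with hSdef
  have hS : 2 * S ≤ u * v := by
    have : 0 ≤ max (2 * A - u) 0 * max (2 * B - v) 0 :=
      mul_nonneg (le_max_right _ _) (le_max_right _ _)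
    linarith
  have hSba : ∑ i ∈ s, b i * a i = S := Finset.sum_congr rfl fun i _ => mul_comm _ _
  set W := s.filter (fun i => u < 4 * a i) with hW
  set T := s.filter (fun i => v < 4 * b i) with hT
  have hWs : W ⊆ s := Finset.filter_subset _ _
  have hTs : T ⊆ s := Finset.filter_subset _ _
  have hTba : ∑ j ∈ T, b j * a j = ∑ j ∈ T, a j * b j :=
    Finset.sum_congr rfl fun i _ => mul_comm _ _
  by_cases h3 : ∀ i ∈ W ∩ T, ∀ j ∈ W ∩ T, i = j
  · by_cases hW1 : 8 * ∑ j ∈ W, a j * b j ≤ 3 * (u * v) ∧ ∃ i ∈ s, 4 * a i ≤ u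
    · exact step_three hG hs hn hv hab hS hW1.1 hW1.2
    by_cases hT1 : 8 * ∑ j ∈ T, a j * b j ≤ 3 * (u * v) ∧ ∃ i ∈ s, 4 * b i ≤ v
    · refine (step_three hG hs hn hu hba (by rw [hSba]; linarith [mul_comm u v]) ?_ hT1.2).swap
      rw [← hT, hTba, mul_comm v u]
      exact hT1.1
    exfalso
    have hposuv : 0 < u * v := mul_pos hu hv
    have hX := small_of_sub hu0 hv0 hab ((Finset.inter_subset_left).trans hWs) h3
    -- everything wide or large area
    have hWalt : (3 * (u * v) < 8 * ∑ j ∈ W, a j * b j) ∨ W = s := by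
      by_cases h : 3 * (u * v) < 8 * ∑ j ∈ W, a j * b j
      · exact Or.inl h
      · right
        push Not at h
        refine Finset.Subset.antisymm hWs fun i hi => ?_
        rw [hW, Finset.mem_filter]
        refine ⟨hi, ?_⟩
        by_contra hcon
        push Not at hcon
        exact hW1 ⟨h, i, hi, hcon⟩
    have hTalt : (3 * (u * v) < 8 * ∑ j ∈ T, a j * b j) ∨ T = s := by
      by_cases h : 3 * (u * v) < 8 * ∑ j ∈ T, a j * b j
      · exact Or.inl h
      · right
        push Not at h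
        refine Finset.Subset.antisymm hTs fun i hi => ?_
        rw [hT, Finset.mem_filter]
        refine ⟨hi, ?_⟩
        by_contra hcon
        push Not at hcon
        exact hT1 ⟨h, i, hi, hcon⟩
    rcases hWalt with hWa | hWa <;> rcases hTalt with hTa | hTa
    · have e1 := Finset.sum_union_inter (s₁ := W) (s₂ := T) (f := fun j => a j * b j)
      have e2 : ∑ j ∈ W ∪ T, a j * b j ≤ S := by
        refine Finset.sum_le_sum_of_subset_of_nonneg (Finset.union_subset hWs hTs) ?_
        intro i hi _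
        exact (mul_pos (hab i hi).1 (hab i hi).2.2.1).le
      linarith
    · rw [hTa, Finset.inter_eq_left.2 hWs] at hX
      linarith
    · rw [hWa, Finset.inter_eq_right.2 hTs] at hX
      linarith
    · rw [hWa, hTa, Finset.inter_self] at h3
      have h4 : s.card ≤ 1 := Finset.card_le_one.2 h3
      omega
  · push Not at h3
    obtain ⟨i, hi, k, hk, hik⟩ := h3
    rw [Finset.mem_inter] at hi hk
    have hiW := Finset.mem_filter.1 hi.1
    have hiT := Finset.mem_filter.1 hi.2
    have hkW := Finset.mem_filter.1 hk.1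
    have hkT := Finset.mem_filter.1 hk.2
    have hi' := hab i hiW.1
    have hk' := hab k hkW.1
    rcases pair_ok hS hiW.2 hi'.2.1 hiT.2 hi'.2.2.2 hkW.2 hkT.2 with h | h
    · exact step_two hG hs hv0 hab hiW.1 hkW.1 hik h
    · refine (step_two hG hs hu0 hba hiW.1 hkW.1 hik ?_).swap
      rw [hSba]
      have e1 : b i * a i = a i * b i := mul_comm _ _
      have e2 : b k * a k = a k * b k := mul_comm _ _
      rw [e1, e2, mul_comm (v - max (b i) (b k)) u]
      exact h

theorem good_all [DecidableEq ι] (n : ℕ) : Good ι n := by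
  induction n with
  | zero =>
    intro s a b u v A B hs
    exact absurd hs (Nat.not_lt_zero _)
  | succ n ih =>
    intro s a b u v A B hs hC
    rcases Nat.lt_or_ge s.card n with h | h
    · exact ih s a b u v A B h hC
    · exact step ih (by omega) hC

/-- **Steinberg's theorem.** -/
theorem steinberg {s : Finset ι} {a b : ι → ℝ} {u v A B : ℝ}
    (hab : ∀ i ∈ s, 0 < a i ∧ a i ≤ A ∧ 0 < b i ∧ b i ≤ B) (hA : A ≤ u) (hB : B ≤ v)
    (hu : 0 ≤ u) (hv : 0 ≤ v)
    (hS : 2 * ∑ i ∈ s, a i * b i ≤ u * v - max (2 * A - u) 0 * max (2 * B - v) 0) :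
    Packs s a b u v := by
  classical
  exact good_all (s.card + 1) s a b u v A B (Nat.lt_succ_self _) ⟨hab, hA, hB, hu, hv, hS⟩

end Pool.Agent.L7h89.St
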